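import Mathlib
set_option autoImplicit false

/-!
# Eisenstein-Kronecker series at torsion points: definitions
-/

namespace Pool.Agent.N65.EK

open Complex ComplexConjugate

/-- the period `g₁ ω₁ + g₂ ω₂` -/
noncomputable def lat (L : PeriodPair) (g : ℤ × ℤ) : ℂ := g.1 * L.ω₁ + g.2 * L.ω₂

/-- the value of the character attached to the torsion point `(t₁ ω₁ + t₂ ω₂) / N` at the period
`g₁ ω₁ + g₂ ω₂` -/
noncomputable def chr (N : ℕ) (t g : ℤ × ℤ) : ℂ :=
  Complex.exp (2 * Real.pi * Complex.I * (((t.1 * g.2 - t.2 * g.1 : ℤ) : ℂ) / N))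

/-- the Eisenstein-Kronecker vector at the torsion point `(t₁ ω₁ + t₂ ω₂) / N`, with the components
`∑ χ_t(ω) / (ω ^ (a + 1) * conj ω ^ (k - a + 1))`, `0 ≤ a ≤ k` -/
noncomputable def ek (L : PeriodPair) (k N : ℕ) (t : ℤ × ℤ) : Fin (k + 1) → ℂ := fun a =>
  ∑' g : ℤ × ℤ, if g = 0 then 0 else
    chr N t g / (lat L g ^ (a.val + 1) * conj (lat L g) ^ (k - a.val + 1))

/-- the nonzero torsion points `(t₁ ω₁ + t₂ ω₂) / N` -/
noncomputable def tor (N : ℕ) : Finset (ℤ × ℤ) := (Finset.Ico (0 : ℤ) N ×ˢ Finset.Ico (0 : ℤ) N).erase 0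

end Pool.Agent.N65.EK
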