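import Pool.Agent.N65.EK.Defs
set_option autoImplicit false

/-!
# Eisenstein-Kronecker series at torsion points: proofs
-/

namespace Pool.Agent.N65.EK

open Complex ComplexConjugate Filter Topology

variable (L : PeriodPair) (k : ℕ)

/-- the summand without the character -/
noncomputable def f (a : Fin (k + 1)) (g : ℤ × ℤ) : ℂ :=
  if g = 0 then 0 else 1 / (lat L g ^ (a.val + 1) * conj (lat L g) ^ (k - a.val + 1))

theorem lat_eq (g : ℤ × ℤ) : (L.latticeEquivProd.symm g : ℂ) = lat L g := by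
  rw [L.latticeEquiv_symm_apply]
  rfl

theorem lat_ne {g : ℤ × ℤ} (hg : g ≠ 0) : lat L g ≠ 0 := by
  rw [← lat_eq]
  intro h
  apply hg
  have h1 : L.latticeEquivProd.symm g = 0 := Subtype.ext h
  simpa using h1

theorem norm_f (a : Fin (k + 1)) (g : ℤ × ℤ) : ‖f L k a g‖ ≤ ‖lat L g‖⁻¹ ^ (k + 2) := by
  unfold f
  split_ifs with h
  · simp only [norm_zero]
    positivity
  · have ha : a.val ≤ k := Nat.lt_succ_iff.1 a.2
    rw [norm_div, norm_mul, norm_pow, norm_pow, RCLike.norm_conj, norm_one, one_div, ← pow_add,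
      inv_pow, show a.val + 1 + (k - a.val + 1) = k + 2 by omega]

theorem summable_lat (hk : 1 ≤ k) : Summable fun g : ℤ × ℤ => ‖lat L g‖⁻¹ ^ (k + 2) := by
  have h1 := ZLattice.summable_norm_pow_inv L.lattice (k + 2) (by rw [L.finrank_lattice]; omega)
  have h2 := (L.latticeEquivProd.symm.toEquiv.summable_iff).2 h1
  refine h2.congr fun g => ?_
  simp only [Function.comp_apply, LinearEquiv.coe_toEquiv]
  rw [← lat_eq]
  rfl

theorem summable_f (hk : 1 ≤ k) (a : Fin (k + 1)) : Summable fun g => f L k a g :=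
  Summable.of_norm_bounded (summable_lat L k hk) (norm_f L k a)

theorem norm_chr (N : ℕ) (t g : ℤ × ℤ) : ‖chr N t g‖ = 1 := by
  unfold chr
  rw [show 2 * (Real.pi : ℂ) * I * (((t.1 * g.2 - t.2 * g.1 : ℤ) : ℂ) / N) =
    ((2 * Real.pi * (((t.1 * g.2 - t.2 * g.1 : ℤ) : ℝ) / N) : ℝ) : ℂ) * I by push_cast; ring]
  exact Complex.norm_exp_ofReal_mul_I _

theorem ek_eq (N : ℕ) (t : ℤ × ℤ) (a : Fin (k + 1)) :
    ek L k N t a = ∑' g, chr N t g * f L k a g := by
  unfold ek f
  refine tsum_congr fun g => ?_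
  split_ifs with h
  · simp
  · rw [mul_one_div]

theorem summable_chr (hk : 1 ≤ k) (N : ℕ) (t : ℤ × ℤ) (a : Fin (k + 1)) :
    Summable fun g => chr N t g * f L k a g := by
  refine Summable.of_norm_bounded (summable_lat L k hk) fun g => ?_
  rw [norm_mul, norm_chr, one_mul]
  exact norm_f L k a g

theorem chr_mul (N : ℕ) (t g h : ℤ × ℤ) : chr N t g * chr N t h = chr N t (g + h) := by
  unfold chr
  rw [← Complex.exp_add]
  congr 1
  simp only [Prod.fst_add, Prod.snd_add]
  push_cast
  ring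

/-- geometric sums -/
theorem geom (N : ℕ) (hN : 0 < N) (h : ℤ) :
    ∑ t ∈ Finset.Ico (0 : ℤ) N, Complex.exp (2 * Real.pi * I * ((t * h : ℤ) / N)) =
      if (N : ℤ) ∣ h then (N : ℂ) else 0 := by
  have hN' : (N : ℂ) ≠ 0 := Nat.cast_ne_zero.2 hN.ne'
  have h1 : ∑ t ∈ Finset.Ico (0 : ℤ) N, Complex.exp (2 * Real.pi * I * ((t * h : ℤ) / N)) =
      ∑ t ∈ Finset.range N, (Complex.exp (2 * Real.pi * I * (h / N))) ^ t := by
    have : Finset.Ico (0 : ℤ) N = (Finset.range N).map Nat.castEmbedding := by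
      ext x
      simp only [Finset.mem_Ico, Finset.mem_map, Finset.mem_range, Nat.castEmbedding_apply]
      constructor
      · rintro ⟨h1, h2⟩
        exact ⟨x.toNat, by omega, by omega⟩
      · rintro ⟨y, hy, rfl⟩
        exact ⟨by omega, by exact_mod_cast hy⟩
    rw [this, Finset.sum_map]
    refine Finset.sum_congr rfl fun t _ => ?_
    rw [← Complex.exp_nat_mul]
    congr 1
    simp only [Nat.castEmbedding_apply]
    push_cast
    ring
  rw [h1]
  split_ifs with hd
  · obtain ⟨q, rfl⟩ := hd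
    have h2 : Complex.exp (2 * Real.pi * I * (((N * q : ℤ) : ℂ) / N)) = 1 := by
      rw [Complex.exp_eq_one_iff]
      refine ⟨q, ?_⟩
      push_cast
      field_simp
    rw [h2]
    simp
  · have h2 : Complex.exp (2 * Real.pi * I * (h / N)) ≠ 1 := by
      intro h3
      obtain ⟨q, hq⟩ := Complex.exp_eq_one_iff.1 h3
      apply hd
      refine ⟨q, ?_⟩
      have h4 : (2 * Real.pi * I : ℂ) ≠ 0 := Complex.two_pi_I_ne_zero
      have h5 : (h : ℂ) / N = q := by
        apply mul_left_cancel₀ h4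
        rw [hq]
        ring
      rw [div_eq_iff hN'] at h5
      have h6 : (h : ℂ) = ((N * q : ℤ) : ℂ) := by
        rw [h5]
        push_cast
        ring
      exact_mod_cast h6
    rw [geom_sum_eq h2]
    have h3 : Complex.exp (2 * Real.pi * I * (h / N)) ^ N = 1 := by
      rw [← Complex.exp_nat_mul, Complex.exp_eq_one_iff]
      refine ⟨h, ?_⟩
      field_simp
    rw [h3, sub_self, zero_div]

/-- all torsion points -/
noncomputable def all (N : ℕ) : Finset (ℤ × ℤ) := Finset.Ico (0 : ℤ) N ×ˢ Finset.Ico (0 : ℤ) N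

theorem orth (N : ℕ) (hN : 0 < N) (h : ℤ × ℤ) :
    ∑ t ∈ all N, chr N t h = if (N : ℤ) ∣ h.1 ∧ (N : ℤ) ∣ h.2 then (N : ℂ) ^ 2 else 0 := by
  unfold all
  rw [Finset.sum_product]
  have h1 : ∀ t₁ t₂ : ℤ, chr N (t₁, t₂) h = Complex.exp (2 * Real.pi * I * ((t₁ * h.2 : ℤ) / N)) *
      Complex.exp (2 * Real.pi * I * ((t₂ * (-h.1) : ℤ) / N)) := by
    intro t₁ t₂
    unfold chr
    rw [← Complex.exp_add]
    congr 1
    push_cast
    ring
  simp only [h1]
  rw [← Finset.sum_mul_sum, geom N hN, geom N hN]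
  simp only [dvd_neg]
  by_cases h2 : (N : ℤ) ∣ h.2 <;> by_cases h3 : (N : ℤ) ∣ h.1 <;> simp [h2, h3, sq]

/-- the part of the sum over a residue class -/
noncomputable def part (N : ℕ) (g₀ : ℤ × ℤ) (a : Fin (k + 1)) : ℂ :=
  ∑' g : ℤ × ℤ, if (N : ℤ) ∣ g.1 - g₀.1 ∧ (N : ℤ) ∣ g.2 - g₀.2 then f L k a g else 0

theorem fourier (hk : 1 ≤ k) (N : ℕ) (hN : 0 < N) (g₀ : ℤ × ℤ) (a : Fin (k + 1)) :
    ∑ t ∈ all N, chr N t (-g₀) * ek L k N t a = (N : ℂ) ^ 2 * part L k N g₀ a := by
  simp only [ek_eq]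
  have h1 : ∀ t, chr N t (-g₀) * ∑' g, chr N t g * f L k a g =
      ∑' g, chr N t (g - g₀) * f L k a g := by
    intro t
    rw [← tsum_mul_left]
    refine tsum_congr fun g => ?_
    rw [← mul_assoc, chr_mul]
    congr 2
    abel
  simp only [h1]
  have h2 : ∀ t ∈ all N, Summable fun g => chr N t (g - g₀) * f L k a g := by
    intro t _
    refine Summable.of_norm_bounded (summable_lat L k hk) fun g => ?_
    rw [norm_mul, norm_chr, one_mul]
    exact norm_f L k a g
  rw [← Summable.tsum_finsetSum h2]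
  unfold part
  rw [← tsum_mul_left]
  refine tsum_congr fun g => ?_
  rw [← Finset.sum_mul, orth N hN]
  simp only [Prod.fst_sub, Prod.snd_sub]
  split_ifs <;> simp

theorem tendsto_part (hk : 1 ≤ k) (g₀ : ℤ × ℤ) (a : Fin (k + 1)) :
    Tendsto (fun N : ℕ => part L k N g₀ a) atTop (𝓝 (f L k a g₀)) := by
  have h1 : f L k a g₀ = ∑' g : ℤ × ℤ, if g = g₀ then f L k a g else 0 := by
    rw [tsum_eq_single g₀]
    · simp
    · intro g hg
      rw [if_neg hg]
  rw [h1]
  unfold part
  refine tendsto_tsum_of_dominated_convergence (summable_lat L k hk) ?_ ?_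
  · intro g
    by_cases hg : g = g₀
    · subst hg
      simp
    · rw [if_neg hg]
      refine tendsto_const_nhds.congr' ?_
      filter_upwards [eventually_gt_atTop ((g.1 - g₀.1).natAbs + (g.2 - g₀.2).natAbs)] with N hN
      rw [if_neg]
      rintro ⟨h2, h3⟩
      apply hg
      have h4 : g.1 - g₀.1 = 0 := Int.eq_zero_of_dvd_of_natAbs_lt_natAbs h2 (by simpa using by omega)
      have h5 : g.2 - g₀.2 = 0 := Int.eq_zero_of_dvd_of_natAbs_lt_natAbs h3 (by simpa using by omega)
      exact Prod.ext (by omega) (by omega)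
  · refine Eventually.of_forall fun N g => ?_
    split_ifs
    · exact norm_f L k a g
    · simp only [norm_zero]
      positivity

theorem lat_neg (g : ℤ × ℤ) : lat L (-g) = - lat L g := by
  unfold lat
  simp only [Prod.fst_neg, Prod.snd_neg]
  push_cast
  ring

theorem conj_chr (N : ℕ) (t g : ℤ × ℤ) : conj (chr N t g) = chr N t (-g) := by
  unfold chr
  rw [← Complex.exp_conj]
  congr 1
  simp only [map_mul, map_div₀, Complex.conj_ofReal, Complex.conj_I, map_intCast, map_natCast,
    map_ofNat, Prod.fst_neg, Prod.snd_neg]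
  push_cast
  ring

theorem conj_f (a : Fin (k + 1)) (g : ℤ × ℤ) : conj (f L k a g) = f L k a.rev g := by
  have ha : a.val ≤ k := Nat.lt_succ_iff.1 a.2
  unfold f
  split_ifs with h
  · simp
  · simp only [map_div₀, map_one, map_mul, map_pow, Complex.conj_conj, Fin.val_rev]
    rw [show k + 1 - (a.val + 1) = k - a.val by omega, show k - (k - a.val) = a.val by omega, mul_comm]

theorem f_neg (a : Fin (k + 1)) (g : ℤ × ℤ) : f L k a (-g) = (-1) ^ k * f L k a g := by
  have ha : a.val ≤ k := Nat.lt_succ_iff.1 a.2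
  unfold f
  simp only [neg_eq_zero]
  split_ifs with h
  · simp
  · rw [lat_neg, map_neg, neg_pow (lat L g), neg_pow (conj (lat L g)), mul_mul_mul_comm, ← pow_add,
      show a.val + 1 + (k - a.val + 1) = k + 2 by omega, one_div, mul_inv, one_div]
    congr 1
    rw [pow_add, mul_inv]
    rcases neg_one_pow_eq_or ℂ k with h1 | h1 <;> rw [h1] <;> norm_num

theorem rev_ek (N : ℕ) (t : ℤ × ℤ) (a : Fin (k + 1)) :
    ek L k N t a.rev = (-1) ^ k * conj (ek L k N t a) := by
  rw [ek_eq, ek_eq, conj_tsum, ← tsum_mul_left,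
    ← (Equiv.neg (ℤ × ℤ)).tsum_eq (fun g => chr N t g * f L k a.rev g)]
  refine tsum_congr fun g => ?_
  simp only [Equiv.neg_apply, map_mul, conj_chr, conj_f, f_neg]
  ring

theorem chr_zero (N : ℕ) (g : ℤ × ℤ) : chr N 0 g = 1 := by
  unfold chr
  simp

theorem part_zero (N : ℕ) (hN : 0 < N) (a : Fin (k + 1)) :
    (N : ℂ) ^ (k + 2) * part L k N 0 a = ek L k N 0 a := by
  have hN' : (N : ℂ) ≠ 0 := Nat.cast_ne_zero.2 hN.ne'
  have ha : a.val ≤ k := Nat.lt_succ_iff.1 a.2
  have hinj : Function.Injective fun h : ℤ × ℤ => ((N : ℤ) * h.1, (N : ℤ) * h.2) := by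
    intro x y hxy
    have hN2 : (N : ℤ) ≠ 0 := by exact_mod_cast hN.ne'
    simp only [Prod.mk.injEq] at hxy
    exact Prod.ext (mul_left_cancel₀ hN2 hxy.1) (mul_left_cancel₀ hN2 hxy.2)
  rw [ek_eq]
  unfold part
  rw [← hinj.tsum_eq, ← tsum_mul_left]
  · refine tsum_congr fun h => ?_
    rw [chr_zero, one_mul, if_pos (by simp)]
    unfold f
    by_cases h0 : h = 0
    · subst h0
      simp
    · rw [if_neg h0, if_neg (by
        intro h1
        apply h0
        apply hinj
        simpa using h1)]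
      have h2 : lat L ((N : ℤ) * h.1, (N : ℤ) * h.2) = N * lat L h := by
        unfold lat
        push_cast
        ring
      have h3 := lat_ne L h0
      have h4 : conj (lat L h) ≠ 0 := by simpa using h3
      rw [h2, map_mul, map_natCast, mul_pow, mul_pow]
      rw [show (N : ℂ) ^ (k + 2) = N ^ (a.val + 1) * N ^ (k - a.val + 1) by
        rw [← pow_add]; congr 1; omega]
      field_simp
  · intro g hg
    simp only [Function.mem_support, ne_eq, ite_eq_right_iff, Classical.not_imp] at hg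
    obtain ⟨⟨⟨x, hx⟩, ⟨y, hy⟩⟩, _⟩ := hg
    simp only [Prod.fst_zero, Prod.snd_zero, sub_zero] at hx hy
    exact ⟨(x, y), by simp only; rw [← hx, ← hy]⟩

theorem sum_all (hk : 1 ≤ k) (N : ℕ) (hN : 0 < N) (a : Fin (k + 1)) :
    (N : ℂ) ^ k * ∑ t ∈ all N, ek L k N t a = ek L k N 0 a := by
  have h1 := fourier L k hk N hN 0 a
  have h2 : ∀ t : ℤ × ℤ, chr N t (-0) = 1 := by
    intro t
    unfold chr
    simp
  simp only [h2, one_mul] at h1
  rw [h1, ← part_zero L k N hN a]
  ring

theorem all_eq (N : ℕ) (hN : 0 < N) : all N = insert 0 (tor N) := by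
  unfold tor all
  rw [Finset.insert_erase]
  simp [hN]

theorem det_ne : (Matrix.of fun j a : Fin (k + 1) => f L k a (1, (j.val : ℤ))).det ≠ 0 := by
  have hz : ∀ j : Fin (k + 1), lat L (1, (j.val : ℤ)) ≠ 0 := fun j => lat_ne L (by simp)
  have hz' : ∀ j : Fin (k + 1), conj (lat L (1, (j.val : ℤ))) ≠ 0 := fun j => by simpa using hz j
  have h1 : (Matrix.of fun j a : Fin (k + 1) => f L k a (1, (j.val : ℤ))) =
      Matrix.diagonal (fun j : Fin (k + 1) =>
        1 / (lat L (1, (j.val : ℤ)) * conj (lat L (1, (j.val : ℤ))) ^ (k + 1))) *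
      Matrix.vandermonde fun j : Fin (k + 1) => conj (lat L (1, (j.val : ℤ))) / lat L (1, (j.val : ℤ)) := by
    ext j a
    have ha : a.val ≤ k := Nat.lt_succ_iff.1 a.2
    rw [Matrix.diagonal_mul, Matrix.of_apply, Matrix.vandermonde_apply]
    unfold f
    rw [if_neg (by simp)]
    have h2 := hz j
    have h3 := hz' j
    have h4 : conj (lat L (1, (j.val : ℤ))) ^ (k + 1) =
        conj (lat L (1, (j.val : ℤ))) ^ (k - a.val + 1) * conj (lat L (1, (j.val : ℤ))) ^ a.val := by
      rw [← pow_add]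
      congr 1
      omega
    rw [div_pow, h4, pow_succ (lat L _) a.val]
    field_simp
  rw [h1, Matrix.det_mul, Matrix.det_diagonal]
  refine mul_ne_zero ?_ ?_
  · rw [Finset.prod_ne_zero_iff]
    intro j _
    exact one_div_ne_zero (mul_ne_zero (hz j) (pow_ne_zero _ (hz' j)))
  · rw [Matrix.det_vandermonde_ne_zero_iff]
    intro i j hij
    simp only at hij
    rw [div_eq_div_iff (hz i) (hz j)] at hij
    have h2 : (conj (lat L (1, (i.val : ℤ))) * lat L (1, (j.val : ℤ))).im = 0 := by
      have h3 : conj (conj (lat L (1, (i.val : ℤ))) * lat L (1, (j.val : ℤ))) =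
          conj (lat L (1, (i.val : ℤ))) * lat L (1, (j.val : ℤ)) := by
        rw [map_mul, Complex.conj_conj, hij]
        ring
      exact Complex.conj_eq_iff_im.1 h3
    have hind := LinearIndependent.pair_iff.1 L.indep
    set r : ℝ := (conj (lat L (1, (i.val : ℤ))) * lat L (1, (j.val : ℤ))).re with hr
    have h4 : conj (lat L (1, (i.val : ℤ))) * lat L (1, (j.val : ℤ)) = (r : ℂ) :=
      Complex.ext (by simp [hr]) (by simp [h2])
    set q : ℝ := Complex.normSq (lat L (1, (i.val : ℤ))) with hq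
    have hq0 : q ≠ 0 := by
      rw [hq]
      exact (Complex.normSq_pos.2 (hz i)).ne'
    have h5 : (q : ℂ) * lat L (1, (j.val : ℤ)) = r * lat L (1, (i.val : ℤ)) := by
      rw [← h4, hq, Complex.normSq_eq_conj_mul_self]
      ring
    have h6 := hind (q - r) (q * j.val - r * i.val) (by
      have h7 : lat L (1, (j.val : ℤ)) = L.ω₁ + j.val * L.ω₂ := by unfold lat; push_cast; ring
      have h8 : lat L (1, (i.val : ℤ)) = L.ω₁ + i.val * L.ω₂ := by unfold lat; push_cast; ring
      rw [h7, h8] at h5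
      simp only [Complex.real_smul]
      push_cast
      linear_combination h5)
    have h7 : r = q := by linarith [h6.1]
    have h8 : q * (j.val : ℝ) = q * i.val := by
      have := h6.2
      rw [h7] at this
      linarith
    have h9 := mul_left_cancel₀ hq0 h8
    exact Fin.ext (by exact_mod_cast h9.symm)

/-- the real vectors -/
def real (k : ℕ) : Submodule ℝ (Fin (k + 1) → ℂ) where
  carrier := {v | ∀ a, v a.rev = (-1) ^ k * conj (v a)}
  add_mem' := by
    intro v w hv hw a
    simp only [Pi.add_apply, map_add, hv a, hw a]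
    ring
  zero_mem' := by
    intro a
    simp
  smul_mem' := by
    intro r v hv a
    simp only [Pi.smul_apply, Complex.real_smul, map_mul, Complex.conj_ofReal, hv a]
    ring

theorem span_eq (hk : 1 ≤ k) : ∃ N₀ : ℕ, ∀ N ≥ N₀,
    (Submodule.span ℝ ((fun t => ek L k N t) '' (tor N : Set (ℤ × ℤ))) : Set (Fin (k + 1) → ℂ)) =
      {v | ∀ a, v a.rev = (-1) ^ k * conj (v a)} := by
  have h1 : Tendsto (fun N : ℕ => (Matrix.of fun j a : Fin (k + 1) =>
      part L k N (1, (j.val : ℤ)) a).det) atTop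
      (𝓝 (Matrix.of fun j a : Fin (k + 1) => f L k a (1, (j.val : ℤ))).det) := by
    refine ((continuous_id.matrix_det).tendsto _).comp ?_
    refine tendsto_pi_nhds.2 fun j => tendsto_pi_nhds.2 fun a => ?_
    exact tendsto_part L k hk (1, (j.val : ℤ)) a
  obtain ⟨N₁, hN₁⟩ := eventually_atTop.1 (h1.eventually_ne (det_ne L k))
  refine ⟨max N₁ 2, fun N hN => ?_⟩
  have hN2 : 2 ≤ N := (le_max_right _ _).trans hN
  have hN0 : 0 < N := by omega
  have hNc : (N : ℂ) ≠ 0 := Nat.cast_ne_zero.2 hN0.ne'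
  have hdet := hN₁ N ((le_max_left _ _).trans hN)
  apply Set.Subset.antisymm
  · have : Submodule.span ℝ ((fun t => ek L k N t) '' (tor N : Set (ℤ × ℤ))) ≤ real k := by
      rw [Submodule.span_le]
      rintro _ ⟨t, _, rfl⟩
      exact rev_ek L k N t
    exact this
  · intro v hv
    set A : Matrix (Fin (k + 1)) (Fin (k + 1)) ℂ :=
      Matrix.of fun j a : Fin (k + 1) => part L k N (1, (j.val : ℤ)) a with hA
    have hu : IsUnit A.det := isUnit_iff_ne_zero.2 hdet
    set x : Fin (k + 1) → ℂ := Matrix.vecMul v A⁻¹ with hx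
    have h2 : ∀ a, v a = ∑ j, x j * part L k N (1, (j.val : ℤ)) a := by
      intro a
      have h3 : Matrix.vecMul x A = v := by
        rw [hx, Matrix.vecMul_vecMul, Matrix.nonsing_inv_mul A hu, Matrix.vecMul_one]
      have h4 := congrFun h3 a
      rw [← h4]
      rfl
    set c : ℤ × ℤ → ℂ := fun t => ((N : ℂ) ^ 2)⁻¹ * ∑ j : Fin (k + 1), x j * chr N t (-(1, (j.val : ℤ)))
      with hc
    have h3 : ∀ a, v a = ∑ t ∈ all N, c t * ek L k N t a := by
      intro a
      rw [h2 a]
      have h4 : ∀ j : Fin (k + 1), part L k N (1, (j.val : ℤ)) a =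
          ((N : ℂ) ^ 2)⁻¹ * ∑ t ∈ all N, chr N t (-(1, (j.val : ℤ))) * ek L k N t a := by
        intro j
        rw [fourier L k hk N hN0]
        field_simp
      simp only [h4, hc, Finset.mul_sum, Finset.sum_mul]
      rw [Finset.sum_comm]
      refine Finset.sum_congr rfl fun t _ => Finset.sum_congr rfl fun j _ => ?_
      ring
    have hNk : (N : ℂ) ^ k - 1 ≠ 0 := by
      intro h
      have h4 : ((N ^ k : ℕ) : ℂ) = ((1 : ℕ) : ℂ) := by
        push_cast
        exact sub_eq_zero.1 h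
      have h5 : N ^ k = 1 := by exact_mod_cast h4
      have h6 : 1 < N ^ k := Nat.one_lt_pow (by omega) (by omega)
      omega
    have h0 : (0 : ℤ × ℤ) ∉ tor N := by
      unfold tor
      simp
    have h4 : ∀ a, ek L k N 0 a = - ((N : ℂ) ^ k / ((N : ℂ) ^ k - 1)) * ∑ t ∈ tor N, ek L k N t a := by
      intro a
      have h5 := sum_all L k hk N hN0 a
      rw [all_eq N hN0, Finset.sum_insert h0] at h5
      field_simp
      linear_combination h5
    set e : ℤ × ℤ → ℂ := fun t => c t - c 0 * ((N : ℂ) ^ k / ((N : ℂ) ^ k - 1)) with he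
    have h5 : ∀ a, v a = ∑ t ∈ tor N, e t * ek L k N t a := by
      intro a
      rw [h3 a, all_eq N hN0, Finset.sum_insert h0, h4 a]
      simp only [he, sub_mul, Finset.sum_sub_distrib, ← Finset.mul_sum]
      ring
    have h6 : ∀ a, v a = ∑ t ∈ tor N, conj (e t) * ek L k N t a := by
      intro a
      have h7 := hv a.rev
      rw [Fin.rev_rev, h5 a.rev, map_sum, Finset.mul_sum] at h7
      rw [h7]
      refine Finset.sum_congr rfl fun t _ => ?_
      have h8 := rev_ek L k N t a.rev
      rw [Fin.rev_rev] at h8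
      rw [map_mul, h8]
      ring
    have h7 : v = ∑ t ∈ tor N, (e t).re • ek L k N t := by
      funext a
      rw [Finset.sum_apply]
      simp only [Pi.smul_apply, Complex.real_smul]
      have h8 : (2 : ℂ) * v a = ∑ t ∈ tor N, (e t + conj (e t)) * ek L k N t a := by
        simp only [add_mul, Finset.sum_add_distrib]
        rw [← h5 a, ← h6 a]
        ring
      have h9 : ∀ t, e t + conj (e t) = 2 * ((e t).re : ℂ) := by
        intro t
        rw [Complex.add_conj]
        push_cast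
        ring
      simp only [h9, mul_assoc, ← Finset.mul_sum] at h8
      exact mul_left_cancel₀ two_ne_zero h8
    rw [h7]
    refine Submodule.sum_mem _ fun t ht => Submodule.smul_mem _ _ (Submodule.subset_span ⟨t, ht, rfl⟩)

end Pool.Agent.N65.EK
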